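import Pool.Agent.H50.ODG.Targets

/-!
Board odg_modules: row KN3, triangles with an angle `2π/3`.
-/

set_option autoImplicit false

namespace Pool.Agent.H57.ODG

open Pool.Agent.H57.CP Pool.Agent.H39.TO Pool.Agent.H39.OD Pool.Agent.H50.ODG

theorem kn3_inv (n : ℕ) : (1 : ℚ) / n ≠ 2 / 3 := by
  intro h
  rcases Nat.eq_zero_or_pos n with h0 | h0
  · subst h0
    norm_num at h
  · have hn : (n : ℚ) ≠ 0 := by exact_mod_cast h0.ne'
    rw [div_eq_div_iff hn (by norm_num)] at h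
    have h2 : (3 : ℚ) = 2 * n := by linarith
    have h3 : (3 : ℕ) = 2 * n := by exact_mod_cast h2
    omega

theorem kn3_big {p : ℕ} (hp : 7 ≤ p) (a : ℚ) (ha : a ≤ 4) : a / p ≠ 2 / 3 := by
  intro h
  have hp' : (7 : ℚ) ≤ p := by exact_mod_cast hp
  rw [div_eq_div_iff (by linarith) (by norm_num)] at h
  linarith

theorem kn3_aux {x y z : ℚ} (h : KnO x y z) :
    y ≠ 2 / 3 ∧ z ≠ 2 / 3 ∧ (x = 2 / 3 → y = z ∧ ∃ c : ℕ, 2 ≤ c ∧ y = 1 / c) := by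
  rcases h with ⟨a, b, c, _, _, _, rfl, rfl, rfl⟩ | ⟨p, c, _, _, hc, rfl, rfl, rfl⟩ |
    ⟨p, _, hp, rfl, rfl, rfl⟩ | ⟨p, _, hp, rfl, rfl, rfl⟩ | ⟨p, _, hp, rfl, rfl, rfl⟩ |
    ⟨p, _, hp, rfl, rfl, rfl⟩ | ⟨rfl, rfl, rfl⟩
  · exact ⟨kn3_inv b, kn3_inv c, fun h => absurd h (kn3_inv a)⟩
  · exact ⟨kn3_inv c, kn3_inv c, fun _ => ⟨rfl, c, hc, rfl⟩⟩
  · exact ⟨kn3_inv p, kn3_big hp 2 (by norm_num), fun h => by norm_num at h⟩
  · exact ⟨kn3_inv p, kn3_big hp 3 (by norm_num), fun h => by norm_num at h⟩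
  · exact ⟨kn3_inv p, kn3_inv p, fun h => absurd h (kn3_big hp 4 (by norm_num))⟩
  · exact ⟨kn3_big hp 2 (by norm_num), kn3_big hp 2 (by norm_num),
      fun h => absurd h (kn3_big hp 2 (by norm_num))⟩
  · norm_num

theorem pf_KN3 : T_KN3 := by
  intro u v h
  obtain ⟨hs, h⟩ := h
  have key : u = v ∧ ∃ c : ℕ, 2 ≤ c ∧ u = 1 / c := by
    rcases h with h | h | h | h | h | h
    · exact absurd rfl (kn3_aux h).2.1
    · exact absurd rfl (kn3_aux h).1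
    · exact absurd rfl (kn3_aux h).2.1
    · exact absurd rfl (kn3_aux h).1
    · exact (kn3_aux h).2.2 rfl
    · obtain ⟨e, c, hc, hv⟩ := (kn3_aux h).2.2 rfl
      exact ⟨e.symm, c, hc, e ▸ hv⟩
  obtain ⟨e, c, hc, hu⟩ := key
  refine ⟨e, c, ?_, hu⟩
  have hc' : (2 : ℚ) ≤ c := by exact_mod_cast hc
  rw [← e, hu] at hs
  have h1 : 2 * (1 / (c : ℚ)) ≤ 1 / 3 := by linarith
  have h2 : (6 : ℚ) ≤ c := by
    rw [mul_one_div, div_le_div_iff₀ (by linarith) (by norm_num)] at h1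
    linarith
  exact_mod_cast h2

end Pool.Agent.H57.ODG
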