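import Pool.Agent.H50.ODG.Targets

/-!
Board odg_modules: row SWM, the isometry which exchanges the base vertices.
-/

set_option autoImplicit false

namespace Pool.Agent.H57.ODG

open Pool.Agent.H57.CP Pool.Agent.H39.TO Pool.Agent.H39.OD Pool.Agent.H50.ODG

/-- the isometry -/
noncomputable def sw_G (L S : ℝ) : V4 →ₗ[ℝ] V4 where
  toFun x := ![x 0, x 1, -L * x 2 + S * x 3, -S * x 2 + L * x 3]
  map_add' x y := by
    ext i
    fin_cases i <;> simp <;> ring
  map_smul' c x := by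
    ext i
    fin_cases i <;> simp <;> ring

theorem sw_app (L S : ℝ) (x : V4) :
    sw_G L S x = ![x 0, x 1, -L * x 2 + S * x 3, -S * x 2 + L * x 3] := rfl

theorem sw_mk (L S : ℝ) (h : L ^ 2 - S ^ 2 = 1) (x y : V4) :
    mk (sw_G L S x) (sw_G L S y) = mk x y := by
  rw [sw_app, sw_app]
  simp only [mk, Matrix.cons_val]
  linear_combination (x 3 * y 3 - x 2 * y 2) * h

theorem sw_fut (L S : ℝ) (hL : 0 < L) (h : L ^ 2 - S ^ 2 = 1) (x : H3) :
    0 < (sw_G L S x.1) 3 := by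
  rw [sw_app]
  simp only [Matrix.cons_val]
  have h1 := x.2.1
  have h2 := x.2.2
  simp only [mk] at h1
  have h3 : (S * x.1 2) ^ 2 < (L * x.1 3) ^ 2 := by
    have e1 : L ^ 2 = 1 + S ^ 2 := by linarith
    have e2 : x.1 3 ^ 2 = 1 + x.1 0 ^ 2 + x.1 1 ^ 2 + x.1 2 ^ 2 := by linarith [h1]
    rw [mul_pow, mul_pow, e1, e2]
    nlinarith [sq_nonneg S, sq_nonneg (x.1 0), sq_nonneg (x.1 1), sq_nonneg (x.1 2),
      mul_nonneg (sq_nonneg S) (sq_nonneg (x.1 0)), mul_nonneg (sq_nonneg S) (sq_nonneg (x.1 1)),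
      mul_nonneg (sq_nonneg S) (sq_nonneg (x.1 2))]
  have h4 : 0 < L * x.1 3 := mul_pos hL h2
  have h5 : S * x.1 2 < L * x.1 3 := by
    have := abs_lt_of_sq_lt_sq' h3 h4.le
    exact this.2
  linarith

theorem sw_kap (u v w : ℚ) : kap v u w = kap u v w := by
  unfold kap
  rw [mul_comm (cn v) (cn u), mul_comm (sn v) (sn u)]

theorem sw_eL (u v w : ℚ) (α β : ℝ) : eL v u w β α = eL u v w α β := by
  unfold eL
  rw [sw_kap, mul_comm (Real.cos β) (Real.cos α), mul_comm (Real.sin β) (Real.sin α)]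

theorem sw_eS (u v w : ℚ) (α β : ℝ) : eS v u w β α = eS u v w α β := by
  unfold eS
  rw [sw_eL]

theorem sw_sq (u v w : ℚ) (α β : ℝ) (h : 1 < eL u v w α β) :
    eL u v w α β ^ 2 - eS u v w α β ^ 2 = 1 := by
  unfold eS
  rw [Real.sq_sqrt (by nlinarith)]
  ring

theorem sw_x1 (u v w : ℚ) (α β : ℝ) (h : 1 < eL u v w α β) :
    (x1 u v w α β).1 = ![0, 0, eS u v w α β, eL u v w α β] := by
  have e : Real.sqrt (1 + 0 ^ 2 + 0 ^ 2 + eS u v w α β ^ 2) = eL u v w α β := by
    have h1 := sw_sq u v w α β h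
    have h2 : (1 : ℝ) + 0 ^ 2 + 0 ^ 2 + eS u v w α β ^ 2 = eL u v w α β ^ 2 := by linarith
    rw [h2]
    exact Real.sqrt_sq (by linarith)
  show ![0, 0, eS u v w α β, Real.sqrt (1 + 0 ^ 2 + 0 ^ 2 + eS u v w α β ^ 2)] = _
  rw [e]

theorem pf_SWM (hMKI : T_MKI) : T_SWM := by
  intro u v w α β h
  have hsq := sw_sq u v w α β h
  have hlor : Lor (sw_G (eL u v w α β) (eS u v w α β)) :=
    ⟨fun x y => sw_mk _ _ hsq x y, fun x => sw_fut _ _ (by linarith) hsq x⟩
  obtain ⟨g, hg, he⟩ := hMKI _ hlor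
  have hL := sw_eL u v w α β
  have hS := sw_eS u v w α β
  refine ⟨g, _, hg, he, hlor, ?_, ?_, ?_, ?_, ?_⟩
  · apply Subtype.ext
    rw [← he o, sw_x1 v u w β α (by rw [hL]; exact h), hL, hS, sw_app]
    show ![(0 : ℝ), 0, -eL u v w α β * 0 + eS u v w α β * 1,
      -eS u v w α β * 0 + eL u v w α β * 1] = _
    simp
  · apply Subtype.ext
    rw [← he, sw_x1 u v w α β h, sw_app]
    show ![(0 : ℝ), 0, -eL u v w α β * eS u v w α β + eS u v w α β * eL u v w α β,
      -eS u v w α β * eS u v w α β + eL u v w α β * eL u v w α β] = ![0, 0, 0, 1]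
    have e1 : -eL u v w α β * eS u v w α β + eS u v w α β * eL u v w α β = 0 := by ring
    have e2 : -eS u v w α β * eS u v w α β + eL u v w α β * eL u v w α β = 1 := by
      linarith [hsq]
    rw [e1, e2]
  · rw [sw_app]
    unfold na nb
    rw [hL, hS]
    ext i
    fin_cases i <;> simp <;> ring
  · rw [sw_app]
    unfold na nb
    ext i
    fin_cases i
    · simp
    · simp
    · simp
      linear_combination (sn v * Real.sin β) * hsq
    · simp
      ring
  · rw [sw_app]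
    unfold m1
    ext i
    fin_cases i <;> simp

end Pool.Agent.H57.ODG
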