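import Pool.Agent.H50.ODG.Targets

/-!
Board odg_modules: row YK, the mirrors of a dihedral group.
-/

set_option autoImplicit false

namespace Pool.Agent.H57.ODG

open Pool.Agent.H57.CP Pool.Agent.H39.TO Pool.Agent.H39.OD Pool.Agent.H50.ODG

theorem yk_refl (a x : V4) : refl a x = x + (2 * mk a x) • a := rfl

theorem yk_addr (x y z : V4) : mk x (y + z) = mk x y + mk x z := by
  simp only [mk, Pi.add_apply]; ring

theorem yk_subr (x y z : V4) : mk x (y - z) = mk x y - mk x z := by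
  simp only [mk, Pi.sub_apply]; ring

theorem yk_smulr (c : ℝ) (x y : V4) : mk x (c • y) = c * mk x y := by
  simp only [mk, Pi.smul_apply, smul_eq_mul]; ring

theorem yk_comm (x y : V4) : mk x y = mk y x := by
  simp only [mk]; ring

theorem yk_subl (x y z : V4) : mk (x - y) z = mk x z - mk y z := by
  simp only [mk, Pi.sub_apply]; ring

theorem yk_smull (c : ℝ) (x y : V4) : mk (c • x) y = c * mk x y := by
  simp only [mk, Pi.smul_apply, smul_eq_mul]; ring

/-- the conjugate of a reflection -/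
theorem yk_conj (a b : V4) (c : ℝ) (ha : mk a a = -1) (hab : mk b a = -c) :
    (refl ((2 * c) • a - b) : Module.End ℝ V4) = refl a * refl b * refl a := by
  refine LinearMap.ext fun x => ?_
  rw [Module.End.mul_apply, Module.End.mul_apply]
  have hba : mk a b = -c := by rw [yk_comm, hab]
  have e1 : mk b (refl a x) = mk b x - 2 * c * mk a x := by
    rw [yk_refl, yk_addr, yk_smulr, hab]
    ring
  have e2 : mk a (refl b (refl a x)) = -mk a x - 2 * c * mk b x + 4 * c ^ 2 * mk a x := by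
    rw [yk_refl b, e1, yk_refl a, yk_addr, yk_addr, yk_smulr, yk_smulr, ha, hba]
    ring
  rw [yk_refl a (refl b (refl a x)), e2, yk_refl b, e1, yk_refl a, yk_refl, yk_subl, yk_smull]
  funext i
  simp only [Pi.add_apply, Pi.smul_apply, Pi.sub_apply, smul_eq_mul]
  ring

/-- the mirrors -/
noncomputable def yk_Y (m n : V4) (θ : ℝ) (j : ℕ) : V4 :=
  (Real.sin (j * θ) / Real.sin θ) • m + (Real.sin (((j : ℝ) - 1) * θ) / Real.sin θ) • n

theorem yk_rec (m n : V4) (θ : ℝ) (j : ℕ) :
    yk_Y m n θ (j + 2) = (2 * Real.cos θ) • yk_Y m n θ (j + 1) - yk_Y m n θ j := by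
  have h : ∀ x : ℝ, Real.sin ((x + 2) * θ) =
      2 * Real.cos θ * Real.sin ((x + 1) * θ) - Real.sin (x * θ) := by
    intro x
    have e1 : (x + 2) * θ = (x + 1) * θ + θ := by ring
    have e2 : x * θ = (x + 1) * θ - θ := by ring
    rw [e1, e2, Real.sin_add, Real.sin_sub]
    ring
  have h1 := h j
  have h2 := h ((j : ℝ) - 1)
  unfold yk_Y
  push_cast
  have e3 : (j : ℝ) + 2 - 1 = (j : ℝ) - 1 + 2 := by ring
  have e4 : (j : ℝ) + 1 - 1 = (j : ℝ) - 1 + 1 := by ring
  rw [e3, e4, h1, h2]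
  funext i
  simp only [Pi.add_apply, Pi.smul_apply, Pi.sub_apply, smul_eq_mul]
  ring

theorem yk_neg (n : V4) : (refl (-n) : Module.End ℝ V4) = refl n := by
  refine LinearMap.ext fun x => ?_
  rw [yk_refl, yk_refl]
  funext i
  simp only [mk, Pi.add_apply, Pi.smul_apply, Pi.neg_apply, smul_eq_mul]
  ring

theorem yk_main (m n : V4) (θ : ℝ) (hm : mk m m = -1) (hn : mk n n = -1)
    (hmn : mk m n = Real.cos θ) (hs : Real.sin θ ≠ 0) (j : ℕ) :
    mk (yk_Y m n θ j) (yk_Y m n θ j) = -1 ∧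
    mk (yk_Y m n θ (j + 1)) (yk_Y m n θ (j + 1)) = -1 ∧
    mk (yk_Y m n θ j) (yk_Y m n θ (j + 1)) = -Real.cos θ ∧
    (refl (yk_Y m n θ j) : Module.End ℝ V4) ∈
      Submonoid.closure {(refl m : Module.End ℝ V4), refl n} ∧
    (refl (yk_Y m n θ (j + 1)) : Module.End ℝ V4) ∈
      Submonoid.closure {(refl m : Module.End ℝ V4), refl n} := by
  induction j with
  | zero =>
    have e0 : yk_Y m n θ 0 = -n := by
      unfold yk_Y
      have h1 : ((0 : ℕ) : ℝ) * θ = 0 := by simp
      have h2 : (((0 : ℕ) : ℝ) - 1) * θ = -θ := by simp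
      rw [h1, h2, Real.sin_zero, Real.sin_neg, zero_div, zero_smul, zero_add, neg_div,
        div_self hs, neg_one_smul]
    have e1 : yk_Y m n θ (0 + 1) = m := by
      unfold yk_Y
      have h1 : ((0 + 1 : ℕ) : ℝ) * θ = θ := by simp
      have h2 : (((0 + 1 : ℕ) : ℝ) - 1) * θ = 0 := by simp
      rw [h1, h2, Real.sin_zero, zero_div, zero_smul, add_zero, div_self hs, one_smul]
    rw [e0, e1]
    refine ⟨?_, hm, ?_, ?_, Submonoid.subset_closure (by simp)⟩
    · rw [← neg_one_smul ℝ n, yk_smull, yk_smulr, hn]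
      ring
    · rw [← neg_one_smul ℝ n, yk_smull, yk_comm, hmn]
      ring
    · rw [yk_neg]
      exact Submonoid.subset_closure (by simp)
  | succ j ih =>
    obtain ⟨h1, h2, h3, h4, h5⟩ := ih
    have hr := yk_rec m n θ j
    have h6 : mk (yk_Y m n θ (j + 1)) (yk_Y m n θ j) = -Real.cos θ := by rw [yk_comm, h3]
    refine ⟨h2, ?_, ?_, h5, ?_⟩
    · rw [show j + 1 + 1 = j + 2 from rfl, hr, yk_subl, yk_subr, yk_subr, yk_smull, yk_smull,
        yk_smulr, yk_smulr, h1, h2, h3, h6]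
      ring
    · rw [show j + 1 + 1 = j + 2 from rfl, hr, yk_subr, yk_smulr, h2, h6]
      ring
    · rw [show j + 1 + 1 = j + 2 from rfl, hr, yk_conj _ _ _ h2 h3]
      exact mul_mem (mul_mem h5 h4) h5

theorem pf_YK (_ : T_LOR) : T_YK := by
  intro m n θ hm hn hmn hs j y hy
  have e : y = yk_Y m n θ j := by
    unfold yk_Y
    funext i
    have h := congrFun hy i
    simp only [Pi.add_apply, Pi.smul_apply, smul_eq_mul] at h ⊢
    have e1 : y i = (Real.sin θ * y i) / Real.sin θ := by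
      rw [mul_div_assoc, mul_div_left_comm, div_self hs, mul_one]
    rw [e1, h]
    ring
  have h := yk_main m n θ hm hn hmn hs j
  rw [e]
  exact ⟨h.1, h.2.2.2.1⟩

end Pool.Agent.H57.ODG
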